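import Pool.Agent.Helper50.Dow.Ground
import Pool.Agent.Helper50.Dow.Suslin

/-!
# Both kinds of b-scales in a Suslin tree extension

If `p = b > ℵ₁` and `P` is a Suslin tree, then forcing with `P` adds no new reals, keeps `b`, keeps
every ground model b-scale (unbounded on every infinite set of nodes) a Frechet b-scale, and adds a
b-scale whose Dow space is not Frechet-Urysohn. Everything is expressed by names and the forcing
relation.
-/

open Cardinal Filter Set

namespace Pool.Agent.Results.MP_743798_lc.SuslinCoexistence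

open Pool.Agent.Results.MP_743798_lc.NonFrechetBelowB Pool.Agent.Helper50.Dow

/-- A name, for the forcing notion `P`, of a function from `X` to `Y`: `val p x y` says that the
condition `p` gives the value `y` at `x`. -/
structure Name (P : Type) [PartialOrder P] (X Y : Type) where
  val : P → X → Y → Prop
  mono : ∀ {p q x y}, q ≤ p → val p x y → val q x y
  unique : ∀ {p x y z}, val p x y → val p x z → y = z
  total : ∀ p x, ∃ q ≤ p, ∃ y, val q x y

/-- The condition `p` decides the whole function: the name `f` is forced to be `v`. -/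
def Name.Decides {P : Type} [PartialOrder P] {X Y : Type} (f : Name P X Y) (p : P) (v : X → Y) :
    Prop := ∀ x, f.val p x (v x)

/-- The canonical name of a ground model function. -/
def Name.check (P : Type) [PartialOrder P] {X Y : Type} (v : X → Y) : Name P X Y where
  val _ x y := y = v x
  mono _ h := h
  unique h1 h2 := h1.trans h2.symm
  total p x := ⟨p, le_rfl, v x, rfl⟩

variable {P : Type} [PartialOrder P]

/-- Forcing with `P` adds no new functions between countable sets. -/
def NoNewReals (P : Type) [PartialOrder P] : Prop :=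
  ∀ (X Y : Type) [Countable X] (f : Name P X Y) (p : P), ∃ q ≤ p, ∃ v, f.Decides q v

/-- Fewer than `b` names of reals have a common bound (even one in the ground model). -/
def SmallFamiliesBounded (P : Type) [PartialOrder P] : Prop :=
  ∀ (J : Type), #J < bnum → ∀ g : J → Name P ℕ ℕ, ∃ h : ℕ → ℕ,
    ∀ (j : J) (r : P) (v : ℕ → ℕ), (g j).Decides r v → {n | ¬ v n ≤ h n}.Finite

/-- The sequence `e` of names is forced to be a b-scale, unbounded on every infinite set of
nodes. -/
structure ForcedBScale (e : I → Name P Node ℕ) : Prop where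
  increasing : ∀ (x : I) (r : P) (v : Node → ℕ), (e x).Decides r v → Increasing v
  leStar : ∀ (x y : I) (r : P) (v w : Node → ℕ), (e x).Decides r v → (e y).Decides r w →
    (x ≤ y ↔ LeStar v w)
  root : ∀ (n : ℕ) (x : I) (p : P), ∃ y, x ≤ y ∧ ∃ q ≤ p, ∃ v, (e y).Decides q v ∧ n < v []
  unbounded : ∀ (Z : Name P Node Bool) (g : Name P Node ℕ) (p : P),
    (∀ r ≤ p, ∀ a, Z.Decides r a → {s | a s = true}.Infinite) →
    ∃ x, ∃ q ≤ p, ∃ v a h, (e x).Decides q v ∧ Z.Decides q a ∧ g.Decides q h ∧
      ¬ {s | a s = true ∧ ¬ v s ≤ h s}.Finite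

/-- `p` forces that the node `t` is in the closure of the set `A` in the Dow space of `e` (basic
open sets involve finitely many members of the scale). -/
def ForcesClosure (e : I → Name P Node ℕ) (A : Name P Node Bool) (t : Node) (p : P) : Prop :=
  ∀ (F : Finset I), ∀ r ≤ p, ∀ (v : I → Node → ℕ) (a : Node → Bool),
    (∀ x ∈ F, (e x).Decides r (v x)) → A.Decides r a →
    t ∈ @closure Node (dow (v '' F)) {s | a s = true}

/-- `p` forces that the sequence `u` is a sequence of elements of `A`. -/
def ForcesIn (A : Name P Node Bool) (u : Name P ℕ Node) (p : P) : Prop :=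
  ∀ r ≤ p, ∀ (a : Node → Bool) (s : ℕ → Node), A.Decides r a → u.Decides r s →
    ∀ n, a (s n) = true

/-- `p` forces that the sequence `u` converges to `t` in the Dow space of `e` (convergence for each
member of the scale separately). -/
def ForcesLimit (e : I → Name P Node ℕ) (u : Name P ℕ Node) (t : Node) (p : P) : Prop :=
  ∀ (x : I), ∀ r ≤ p, ∀ (v : Node → ℕ) (s : ℕ → Node), (e x).Decides r v → u.Decides r s →
    Tendsto s atTop (@nhds Node (dow {v}) t)

/-- The Dow space of `e` is forced to be Frechet-Urysohn. -/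
def ForcedFrechet (e : I → Name P Node ℕ) : Prop :=
  ∀ (A : Name P Node Bool) (t : Node) (p : P), ForcesClosure e A t p →
    ∃ u : Name P ℕ Node, ForcesIn A u p ∧ ForcesLimit e u t p

/-- The Dow space of `e` is forced to be not Frechet-Urysohn. -/
def ForcedNotFrechet (e : I → Name P Node ℕ) : Prop :=
  ∃ (A : Name P Node Bool) (t : Node), (∀ p, ForcesClosure e A t p) ∧
    ∀ (u : Name P ℕ Node) (p : P), ¬ (ForcesIn A u p ∧ ForcesLimit e u t p)

/-! ### The two encodings above agree with closure and convergence in the whole Dow space -/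

/-- Closure in a Dow space is closure for all finite subfamilies. -/
lemma mem_closure_dow_iff (e : I → Node → ℕ) (A : Set Node) (t : Node) :
    t ∈ @closure Node (dow (Set.range e)) A ↔
      ∀ F : Finset I, t ∈ @closure Node (dow (e '' F)) A := by
  classical
  constructor
  · intro h F
    have hle : dow (Set.range e) ≤ dow (e '' F) := by
      apply TopologicalSpace.generateFrom_anti
      rintro V (hV | ⟨f, ⟨x, -, rfl⟩, rfl⟩)
      · exact Or.inl hV
      · exact Or.inr ⟨_, ⟨x, rfl⟩, rfl⟩
    exact closure.mono hle h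
  · intro h
    rw [@TopologicalSpace.IsTopologicalBasis.mem_closure_iff _ (dow (Set.range e)) _
      (@TopologicalSpace.isTopologicalBasis_of_subbasis _ (dow (Set.range e)) _ rfl)]
    rintro _ ⟨f, ⟨hffin, hfsub⟩, rfl⟩ ht
    have hx : ∀ V : Set Node, ∃ F : Finset I, V ∈ f →
        V ∈ ({V | ∃ s, V = cone s} ∪ {V | ∃ s, V = (cone s)ᶜ} ∪ {V | ∃ f ∈ e '' F, V = U f}) := by
      intro V
      by_cases hV : V ∈ f
      · rcases hfsub hV with h1 | ⟨_, ⟨x, rfl⟩, rfl⟩
        · exact ⟨∅, fun _ => Or.inl h1⟩
        · exact ⟨{x}, fun _ => Or.inr ⟨_, ⟨x, by simp, rfl⟩, rfl⟩⟩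
      · exact ⟨∅, fun h1 => absurd h1 hV⟩
    choose FV hFV using hx
    let F : Finset I := hffin.toFinset.biUnion FV
    have hopen : @IsOpen Node (dow (e '' F)) (⋂₀ f) := by
      let _ : TopologicalSpace Node := dow (e '' F)
      apply hffin.isOpen_sInter
      intro V hV
      apply TopologicalSpace.isOpen_generateFrom_of_mem
      rcases hFV V hV with h1 | ⟨_, ⟨x, hxF, rfl⟩, rfl⟩
      · exact Or.inl h1
      · exact Or.inr ⟨_, ⟨x, Finset.mem_biUnion.2 ⟨_, hffin.mem_toFinset.2 hV, hxF⟩, rfl⟩, rfl⟩
    exact (@mem_closure_iff _ (dow (e '' F)) _ _).1 (h F) _ hopen ht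

/-- Convergence in a Dow space is convergence for every member of the scale. -/
lemma tendsto_dow_iff [Nonempty I] (e : I → Node → ℕ) (u : ℕ → Node) (t : Node) :
    Tendsto u atTop (@nhds Node (dow (Set.range e)) t) ↔
      ∀ x, Tendsto u atTop (@nhds Node (dow {e x}) t) := by
  constructor
  · intro h x
    have hle : dow (Set.range e) ≤ dow {e x} := by
      apply TopologicalSpace.generateFrom_anti
      rintro V (hV | ⟨f, hf, rfl⟩)
      · exact Or.inl hV
      · rw [Set.mem_singleton_iff] at hf
        exact Or.inr ⟨_, ⟨x, hf.symm⟩, rfl⟩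
    exact h.mono_right (nhds_mono hle)
  · intro h
    refine TopologicalSpace.tendsto_nhds_generateFrom_iff.2 ?_
    rintro V (hV | ⟨_, ⟨x, rfl⟩, rfl⟩) ht
    · exact TopologicalSpace.tendsto_nhds_generateFrom_iff.1 (h (Classical.arbitrary I)) V
        (Or.inl hV) ht
    · exact TopologicalSpace.tendsto_nhds_generateFrom_iff.1 (h x) _ (Or.inr ⟨_, rfl, rfl⟩) ht

/-! ### Deciding names -/

lemma Name.Decides.mono {X Y : Type} {f : Name P X Y} {p q : P} {v : X → Y} (h : f.Decides p v)
    (hq : q ≤ p) : f.Decides q v := fun x => f.mono hq (h x)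

lemma Name.Decides.unique {X Y : Type} {f : Name P X Y} {p : P} {v w : X → Y} (h : f.Decides p v)
    (h2 : f.Decides p w) : v = w := funext fun x => f.unique (h x) (h2 x)

lemma decides_check {X Y : Type} {v w : X → Y} {p : P} :
    (Name.check P v).Decides p w ↔ w = v := by
  constructor
  · intro h; funext x; exact h x
  · rintro rfl x; rfl

lemma noNewReals (hP : IsSuslinTree P) : NoNewReals P := by
  intro X Y _ f p
  obtain ⟨q, hq, hD⟩ := hP.distributive (fun x : X => {q | ∃ y, f.val q x y})
    (fun x q ⟨y, hy⟩ r hr => ⟨y, f.mono hr hy⟩)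
    (fun x q => by
      obtain ⟨r, hr, y, hy⟩ := f.total q x
      exact ⟨r, ⟨y, hy⟩, hr⟩) p
  choose v hv using hD
  exact ⟨q, hq, v, hv⟩

lemma smallFamiliesBounded (hP : IsSuslinTree P) : SmallFamiliesBounded P := by
  intro J hJ g
  have hR : ∀ j, {v | ∃ r, (g j).Decides r v}.Countable := by
    intro j
    have hch : ∀ v : {v | ∃ r, (g j).Decides r v}, ∃ r, (g j).Decides r v.1 := fun v => v.2
    choose r hr using hch
    have hne : ∀ v w, v ≠ w → ¬ r v ≤ r w := by
      intro v w hvw hle
      apply hvw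
      apply Subtype.ext
      exact (hr v).unique ((hr w).mono hle)
    have hinj : Function.Injective r := by
      intro v w hvw
      by_contra hc
      exact hne v w hc hvw.le
    have h1 : (Set.range r).Countable := by
      apply hP.antichain
      rintro _ ⟨v, rfl⟩ _ ⟨w, rfl⟩ hvw
      exact hne v w (fun h => hvw (by rw [h]))
    have h2 : Countable (Set.range r) := h1
    have h3 : Countable {v | ∃ r, (g j).Decides r v} :=
      (Set.rangeFactorization_injective.2 hinj).countable
    exact h3
  have hcard : #(⋃ j, {v | ∃ r, (g j).Decides r v} : Set (ℕ → ℕ)) < bnum := by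
    refine (Cardinal.mk_iUnion_le _).trans_lt ?_
    apply Cardinal.mul_lt_of_lt aleph0_lt_bnum.le hJ
    refine lt_of_le_of_lt ?_ aleph0_lt_bnum
    apply ciSup_le'
    intro j
    exact Cardinal.le_aleph0_iff_set_countable.2 (hR j)
  obtain ⟨h, hh⟩ := bounded_of_lt _ hcard
  refine ⟨h, fun j r v hv => hh v ?_⟩
  exact Set.mem_iUnion.2 ⟨j, r, hv⟩

/-! ### Ground model scales -/

lemma forcedBScale_check (hP : IsSuslinTree P) {e : I → Node → ℕ} (he : RobustBScale e) :
    ForcedBScale (fun x => Name.check P (e x)) where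
  increasing x r v hv := by
    rw [decides_check] at hv
    rw [hv]; exact he.increasing x
  leStar x y r v w hv hw := by
    rw [decides_check] at hv hw
    rw [hv, hw]; exact he.le_iff x y
  root n x p := by
    obtain ⟨y, hy, hn⟩ := he.root n x
    exact ⟨y, hy, p, le_rfl, e y, decides_check.2 rfl, hn⟩
  unbounded Z g p hZ := by
    obtain ⟨q, hq, a, ha⟩ := noNewReals hP Node Bool Z p
    obtain ⟨r, hr, h, hh⟩ := noNewReals hP Node ℕ g q
    obtain ⟨x, hx⟩ := he.unbounded {s | a s = true} (hZ q hq a ha) h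
    exact ⟨x, r, hr.trans hq, e x, a, h, decides_check.2 rfl, ha.mono hr, hh, hx⟩

lemma forcedFrechet_check (hP : IsSuslinTree P) (hpb : pnum = bnum) {e : I → Node → ℕ}
    (he : RobustBScale e) : ForcedFrechet (fun x => Name.check P (e x)) := by
  intro A t p hcl
  have hch : ∀ a : Node → Bool, ∃ u : ℕ → Node,
      (∀ F : Finset I, t ∈ @closure Node (dow (e '' F)) {s | a s = true}) →
        (∀ n, a (u n) = true) ∧ ∀ x, Tendsto u atTop (@nhds Node (dow {e x}) t) := by
    intro a
    by_cases h : ∀ F : Finset I, t ∈ @closure Node (dow (e '' F)) {s | a s = true}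
    · obtain ⟨u, hu⟩ := frechet_of_eq hpb he h
      exact ⟨u, fun _ => hu⟩
    · exact ⟨fun _ => [], fun h2 => absurd h2 h⟩
  choose V hV using hch
  let u : Name P ℕ Node :=
    { val := fun r n y => ∃ a, A.Decides r a ∧ y = V a n
      mono := by
        rintro r q n y hq ⟨a, ha, hy⟩
        exact ⟨a, ha.mono hq, hy⟩
      unique := by
        rintro r n y z ⟨a, ha, hy⟩ ⟨b, hb, hz⟩
        rw [hy, hz, ha.unique hb]
      total := by
        intro r n
        obtain ⟨q, hq, a, ha⟩ := noNewReals hP Node Bool A r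
        exact ⟨q, hq, V a n, a, ha, rfl⟩ }
  have hu : ∀ (r : P) (a : Node → Bool) (s : ℕ → Node), A.Decides r a → u.Decides r s → s = V a := by
    intro r a s ha hs
    funext n
    obtain ⟨b, hb, hsn⟩ := hs n
    rw [hsn, hb.unique ha]
  have hclo : ∀ r ≤ p, ∀ a : Node → Bool, A.Decides r a →
      ∀ F : Finset I, t ∈ @closure Node (dow (e '' F)) {s | a s = true} := by
    intro r hr a ha F
    exact hcl F r hr e a (fun x _ => decides_check.2 rfl) ha
  refine ⟨u, ?_, ?_⟩
  · intro r hr a s ha hs n
    rw [hu r a s ha hs]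
    exact (hV a (hclo r hr a ha)).1 n
  · intro x r hr v s hv hs
    rw [decides_check] at hv
    rw [hv]
    obtain ⟨a, ha, -⟩ := hs 0
    rw [hu r a s ha hs]
    exact (hV a (hclo r hr a ha)).2 x

/-! ### The new scale -/

lemma ff_congr {φ : I → ℕ → ℕ} {Y Y' : I → Set ℕ} {z x : I} (h : Y x = Y' x) :
    ff φ Y z x = ff φ Y' z x := by
  funext t
  unfold ff eps
  rw [h]

lemma ff_congr_high {φ : I → ℕ → ℕ} {Y Y' : I → Set ℕ} {z x : I} (h : z ≤ x) :
    ff φ Y z x = ff φ Y' z x := by
  funext t
  rw [ff_high φ Y h, ff_high φ Y' h]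

/-- The sets read off a condition. -/
noncomputable def YY (T : P → Set ℕ) (c : I → P) (r : P) (x : I) : Set ℕ :=
  open Classical in if r ≤ c x then T (c x) else Set.univ

/-- The names of the members of the new scale. -/
noncomputable def newName (φ : I → ℕ → ℕ) (z : I) (T : P → Set ℕ) (c : I → P) (x : I) :
    Name P Node ℕ where
  val r t n := (x < z → (r ≤ c x ∨ ∀ q ≤ r, ¬ q ≤ c x)) ∧ n = ff φ (YY T c r) z x t
  mono := by
    rintro r q t n hq ⟨h1, h2⟩
    refine ⟨fun hx => ?_, ?_⟩
    · rcases h1 hx with h | h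
      · exact Or.inl (hq.trans h)
      · exact Or.inr fun q' hq' => h q' (hq'.trans hq)
    · rw [h2]
      rcases lt_or_ge x z with hx | hx
      · rw [ff_congr (Y' := YY T c q)]
        rcases h1 hx with h | h
        · rw [YY, YY, if_pos h, if_pos (hq.trans h)]
        · rw [YY, YY, if_neg (h r le_rfl), if_neg (h q hq)]
      · rw [ff_congr_high hx (Y' := YY T c q)]
  unique := by
    rintro r t n m ⟨-, h1⟩ ⟨-, h2⟩
    rw [h1, h2]
  total := by
    intro p t
    by_cases h : ∃ q ≤ p, q ≤ c x
    · obtain ⟨q, hq, hqc⟩ := h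
      exact ⟨q, hq, _, fun _ => Or.inl hqc, rfl⟩
    · push Not at h
      exact ⟨p, le_rfl, _, fun _ => Or.inr h, rfl⟩

lemma newName_decides {φ : I → ℕ → ℕ} {z : I} {T : P → Set ℕ} {c : I → P} {x : I} {r : P}
    {v : Node → ℕ} (h : (newName φ z T c x).Decides r v) :
    (x < z → (r ≤ c x ∨ ∀ q ≤ r, ¬ q ≤ c x)) ∧ v = ff φ (YY T c r) z x :=
  ⟨(h []).1, funext fun t => (h t).2⟩

lemma forcedBScale_new (hP : IsSuslinTree P) {φ : I → ℕ → ℕ} (hφ : IsScale φ) (z : I)
    (T : P → Set ℕ) (c : I → P) : ForcedBScale (newName φ z T c) where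
  increasing x r v hv := by
    rw [(newName_decides hv).2]
    exact ff_increasing hφ _ z x
  leStar x y r v w hv hw := by
    rw [(newName_decides hv).2, (newName_decides hw).2]
    refine ⟨fun h => ?_, fun h => ?_⟩
    · rcases h.eq_or_lt with rfl | h
      · simp [LeStar]
      · exact ff_leStar hφ _ z h
    · by_contra hc
      exact ff_not_leStar hφ _ z (not_le.1 hc) h
  root n x p := by
    obtain ⟨y, hy, hn⟩ := hφ.root (max x z) n
    have hzy : z ≤ y := (le_max_right x z).trans hy
    refine ⟨y, (le_max_left x z).trans hy, p, le_rfl, ff φ (YY T c p) z y, ?_, ?_⟩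
    · intro t
      exact ⟨fun h => absurd h (not_lt.2 hzy), rfl⟩
    · rw [ff_high φ _ hzy]
      exact hn
  unbounded Z g p hZ := by
    obtain ⟨q, hq, a, ha⟩ := noNewReals hP Node Bool Z p
    obtain ⟨r, hr, h, hh⟩ := noNewReals hP Node ℕ g q
    obtain ⟨f, ⟨x, rfl⟩, hx⟩ := ff_unb hφ (YY T c r) z {s | a s = true} (hZ q hq a ha) h
    have hzy : z ≤ max x z := le_max_right x z
    refine ⟨max x z, r, hr.trans hq, ff φ (YY T c r) z (max x z), a, h, ?_, ha.mono hr, hh, ?_⟩
    · intro t
      exact ⟨fun h => absurd h (not_lt.2 hzy), rfl⟩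
    · intro hfin
      apply hx
      have hle : LeStar (ff φ (YY T c r) z x) (ff φ (YY T c r) z (max x z)) := by
        rcases (le_max_left x z).eq_or_lt with h | h
        · rw [← h]; simp [LeStar]
        · exact ff_leStar hφ _ z h
      apply (hfin.union hle).subset
      rintro s ⟨hs1, hs2⟩
      by_cases h3 : ff φ (YY T c r) z x s ≤ ff φ (YY T c r) z (max x z) s
      · left
        exact ⟨hs1, fun h4 => hs2 (h3.trans h4)⟩
      · right; exact h3

lemma forcedNotFrechet_new (hP : IsSuslinTree P) {φ : I → ℕ → ℕ} (hφ : IsScale φ) {z : I}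
    {T : P → Set ℕ} (hT1 : ∀ s, (T s).Infinite) (hT2 : ∀ s q, s ≤ q → (T s \ T q).Finite)
    (hT3 : ∀ s t, ¬ s ≤ t → ¬ t ≤ s → (T s ∩ T t).Finite) {c : I → P}
    (hc : ∀ q : P, ∃ x, x < z ∧ c x = q) : ForcedNotFrechet (newName φ z T c) := by
  classical
  refine ⟨Name.check P fun s => decide (s ∈ Set.range (test φ z)), [], ?_, ?_⟩
  · intro p F r hr v a hv ha
    rw [decides_check] at ha
    have haset : {s | a s = true} = Set.range (test φ z) := by
      ext s; rw [ha]; simp
    rw [haset]
    let L : Filter ℕ := Filter.cofinite ⊓ 𝓟 (T r)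
    have hNe : L.NeBot := by
      rw [Filter.inf_principal_neBot_iff]
      intro s hs
      have h2 : (T r \ sᶜ).Infinite := (hT1 r).sdiff (Filter.mem_cofinite.1 hs)
      obtain ⟨b, hb⟩ := h2.nonempty
      exact ⟨b, by simpa using hb.2, hb.1⟩
    have hcof : ∀ s : Set ℕ, sᶜ.Finite → s ∈ L := fun s hs =>
      Filter.mem_inf_of_left (Filter.mem_cofinite.2 hs)
    have hY : ∀ x, YY T c r x ∈ L := by
      intro x
      unfold YY
      split_ifs with h
      · have h1 : (T r \ T (c x))ᶜ ∈ L := hcof _ (by rw [compl_compl]; exact hT2 _ _ h)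
        have h2 : T r ∈ L := Filter.mem_inf_of_right (Filter.mem_principal_self _)
        filter_upwards [h1, h2] with b hb1 hb2
        by_contra hb3
        exact hb1 ⟨hb2, hb3⟩
      · exact Filter.univ_mem
    let _ : TopologicalSpace Node := dow (v '' F)
    have htend : Filter.Tendsto (test φ z) L (nhds ([] : Node)) := by
      refine TopologicalSpace.tendsto_nhds_generateFrom_iff.2 ?_
      rintro V ((⟨s, rfl⟩ | ⟨s, rfl⟩) | ⟨f, ⟨x, hx, rfl⟩, rfl⟩) hV
      · obtain ⟨u, hu⟩ := hV
        have hs : s = [] := by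
          cases s with
          | nil => rfl
          | cons a as => simp at hu
        subst hs
        apply hcof
        have : (test φ z ⁻¹' cone [])ᶜ = ∅ := by
          ext m; simp [cone]
        rw [this]; exact Set.finite_empty
      · have hs : s ≠ [] := by
          rintro rfl
          exact hV ⟨[], rfl⟩
        apply hcof
        apply (test_cone (φ := φ) (z := z) hs).subset
        intro m hm
        simpa using hm
      · rw [(newName_decides (hv x hx)).2]
        rcases lt_or_ge x z with hxz | hxz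
        · have h1 := hcof {m | (test φ z m ∈ U (ff φ (YY T c r) z x) ↔ m ∈ YY T c r x)}
            ((test_mem_low hφ (YY T c r) hxz).subset fun m hm => hm)
          filter_upwards [h1, hY x] with m hm hm2
          exact hm.2 hm2
        · apply hcof
          exact (test_mem_high hφ (YY T c r) hxz).subset fun m hm => hm
    exact mem_closure_of_tendsto htend (Filter.Eventually.of_forall fun m => ⟨m, rfl⟩)
  · rintro u p ⟨hin, hlim⟩
    obtain ⟨r, hr, s, hs⟩ := noNewReals hP ℕ Node u p
    have hmem : ∀ n, s n ∈ Set.range (test φ z) := by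
      intro n
      have := hin r hr _ s (decides_check.2 rfl) hs n
      simpa using this
    choose m hm using hmem
    have hopen : ∀ q ≤ r, ∀ x, (x < z → q ≤ c x) → ∀ V ∈ ({V | ∃ s, V = cone s} ∪
        {V | ∃ s, V = (cone s)ᶜ} ∪ {V | ∃ f ∈ ({ff φ (YY T c q) z x} : Set (Node → ℕ)), V = U f} :
          Set (Set Node)), [] ∈ V → ∀ᶠ n in Filter.atTop, s n ∈ V := by
      intro q hq x hx V hV h0
      have h1 := hlim x q (hq.trans hr) (ff φ (YY T c q) z x) s
        (fun t => ⟨fun hxz => Or.inl (hx hxz), rfl⟩) (hs.mono hq)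
      exact (TopologicalSpace.tendsto_nhds_generateFrom_iff.1 h1) V hV h0
    have hne : ∀ k, ∀ᶠ n in Filter.atTop, m n ≠ k := by
      intro k
      have h1 := hopen r le_rfl z (fun h => absurd h (lt_irrefl _)) (cone [k])ᶜ
        (Or.inl (Or.inr ⟨_, rfl⟩)) (by rintro ⟨v, hv⟩; simp at hv)
      filter_upwards [h1] with n hn hk
      apply hn
      rw [← hm n]
      have h2 : hd (test φ z (m n)) = m n := hd_path _ _
      have h3 : test φ z (m n) ≠ [] := by
        intro h0
        have := path_length (m n) (φ z (m n) + 1)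
        rw [test] at h0
        rw [h0] at this
        simp at this
      cases h4 : test φ z (m n) with
      | nil => exact absurd h4 h3
      | cons a as =>
        refine ⟨as, ?_⟩
        rw [h4] at h2
        have : a = m n := h2
        rw [this, hk]
        rfl
    have hnefin : ∀ Z : Set ℕ, Z.Finite → ∀ᶠ n in Filter.atTop, m n ∉ Z := by
      intro Z hZ
      have := (Filter.eventually_all_finite hZ (l := Filter.atTop)
        (p := fun k n => m n ≠ k)).2 (fun k _ => hne k)
      filter_upwards [this] with n hn hmem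
      exact hn _ hmem rfl
    have hTev : ∀ q ≤ r, ∀ᶠ n in Filter.atTop, m n ∈ T q := by
      intro q hq
      obtain ⟨x, hx, hcx⟩ := hc q
      have hYq : YY T c q x = T q := by
        rw [YY, if_pos (by rw [hcx]), hcx]
      have h1 := hopen q hq x (fun _ => by rw [hcx]) (U (ff φ (YY T c q) z x))
        (Or.inr ⟨_, rfl, rfl⟩) (by intro i hi; simp at hi)
      have h2 := hnefin _ (test_mem_low hφ (YY T c q) hx)
      filter_upwards [h1, h2] with n hn1 hn2
      simp only [not_not] at hn2
      rw [← hm n] at hn1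
      rw [← hYq]
      exact hn2.1 hn1
    obtain ⟨q1, q2, h1, h2, h12, h21⟩ := hP.splits r
    obtain ⟨n, hn⟩ := ((hTev q1 h1).and ((hTev q2 h2).and (hnefin _ (hT3 q1 q2 h12 h21)))).exists
    exact hn.2.2 ⟨hn.1, hn.2.1⟩

/-- An enumeration of the tree by a proper initial segment of the index set. -/
lemma exists_enum (hP : IsSuslinTree P) (hb : ℵ₁ < bnum) :
    ∃ (z : I) (c : I → P), ∀ q : P, ∃ x, x < z ∧ c x = q := by
  have hlt : (ℵ₁ : Cardinal.{0}).ord < bnum.ord := Cardinal.ord_lt_ord.2 hb
  let f := Ordinal.principalSegToType hlt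
  have hcard : #((ℵ₁ : Cardinal.{0}).ord.ToType) = #P := by rw [Cardinal.mk_ord_toType, hP.card]
  obtain ⟨e⟩ := Cardinal.eq.1 hcard
  have hne : Nonempty P := by
    rw [← Cardinal.mk_ne_zero_iff, hP.card]
    exact (Cardinal.aleph_pos 1).ne'
  classical
  refine ⟨f.top, fun b => if hb : ∃ a, f a = b then e hb.choose else hne.some, fun q => ?_⟩
  refine ⟨f (e.symm q), f.lt_top _, ?_⟩
  have hb : ∃ a, f a = f (e.symm q) := ⟨_, rfl⟩
  simp only [dif_pos hb]
  have h1 : hb.choose = e.symm q := f.toRelEmbedding.injective hb.choose_spec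
  rw [h1]
  simp

/-- **Main theorem.** If `p = b > ℵ₁` and `P` is a Suslin tree then forcing with `P` adds no reals
and preserves `b`, every ground model b-scale (unbounded on every infinite set of nodes) remains a
b-scale and its Dow space is Frechet-Urysohn in the extension, and the extension has another
b-scale whose Dow space is not Frechet-Urysohn. -/
theorem result (hpb : pnum = bnum) (hb : ℵ₁ < bnum) {P : Type} [PartialOrder P]
    (hP : IsSuslinTree P) :
    NoNewReals P ∧ SmallFamiliesBounded P ∧
    (∃ e : I → Node → ℕ, RobustBScale e) ∧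
    (∀ e : I → Node → ℕ, RobustBScale e →
      ForcedBScale (fun x => Name.check P (e x)) ∧ ForcedFrechet (fun x => Name.check P (e x))) ∧
    ∃ e : I → Name P Node ℕ, ForcedBScale e ∧ ForcedNotFrechet e := by
  obtain ⟨T, hT1, hT2, hT3⟩ := hP.exists_embedding
  obtain ⟨z, c, hc⟩ := exists_enum hP hb
  obtain ⟨φ, hφ⟩ := exists_scale
  exact ⟨noNewReals hP, smallFamiliesBounded hP, exists_robust,
    fun e he => ⟨forcedBScale_check hP he, forcedFrechet_check hP hpb he⟩,
    newName φ z T c, forcedBScale_new hP hφ z T c, forcedNotFrechet_new hP hφ hT1 hT2 hT3 hc⟩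

end Pool.Agent.Results.MP_743798_lc.SuslinCoexistence
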